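import Mathlib

set_option autoImplicit false

namespace Pool.Agent.Results.MP_e7abc8_al.NonHopfian

section General

variable (F : Type) [Field F]

/-- The `F`-algebra `A` (not assumed associative, commutative or unital) satisfies every
polynomial identity in the set `S`: for every `s` in `S` and every choice of elements of `A`
for the variables, the value of `s` in `A` is `0`. -/
def InVar (S : Set (FreeNonUnitalNonAssocAlgebra F ℕ)) (A : Type) [NonUnitalNonAssocRing A]
    [Module F A] [IsScalarTower F A A] [SMulCommClass F A A] : Prop :=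
  ∀ s ∈ S, ∀ f : ℕ → A, FreeNonUnitalNonAssocAlgebra.lift F f s = 0

/-- The ideal (here: its underlying subspace) of all elements of the free nonassociative algebra
on `X` that vanish identically on every algebra of the variety defined by `S`. -/
def T (S : Set (FreeNonUnitalNonAssocAlgebra F ℕ)) (X : Type) :
    Submodule F (FreeNonUnitalNonAssocAlgebra F X) where
  carrier := {w | ∀ (A : Type) [NonUnitalNonAssocRing A] [Module F A] [IsScalarTower F A A]
    [SMulCommClass F A A], InVar F S A → ∀ f : X → A, FreeNonUnitalNonAssocAlgebra.lift F f w = 0}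
  add_mem' := by
    intro a b ha hb A _ _ _ _ hA f
    rw [map_add, ha A hA f, hb A hA f, add_zero]
  zero_mem' := by
    intro A _ _ _ _ hA f
    rw [map_zero]
  smul_mem' := by
    intro c a ha A _ _ _ _ hA f
    rw [map_smul, ha A hA f, smul_zero]

/-- The free algebra on `X` in the variety defined by the identities `S`. -/
abbrev RelFree (S : Set (FreeNonUnitalNonAssocAlgebra F ℕ)) (X : Type) : Type :=
  FreeNonUnitalNonAssocAlgebra F X ⧸ T F S X

variable {F} {S : Set (FreeNonUnitalNonAssocAlgebra F ℕ)} {X : Type}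

lemma T_mul_left (a b : FreeNonUnitalNonAssocAlgebra F X) (hb : b ∈ T F S X) :
    a * b ∈ T F S X := by
  intro A _ _ _ _ hA f
  rw [map_mul, hb A hA f, mul_zero]

lemma T_mul_right (a b : FreeNonUnitalNonAssocAlgebra F X) (hb : b ∈ T F S X) :
    b * a ∈ T F S X := by
  intro A _ _ _ _ hA f
  rw [map_mul, hb A hA f, zero_mul]

/-- the product of the relatively free algebra, induced by that of the free algebra -/
noncomputable instance instMulRelFree : Mul (RelFree F S X) :=
  ⟨fun a b => Quotient.liftOn₂' a b (fun u v => Submodule.Quotient.mk (u * v)) (by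
    intro a₁ b₁ a₂ b₂ ha hb
    rw [Submodule.quotientRel_def] at ha hb
    apply (Submodule.Quotient.eq _).2
    have : a₁ * b₁ - a₂ * b₂ = (a₁ - a₂) * b₁ + a₂ * (b₁ - b₂) := by
      rw [sub_mul, mul_sub]; abel
    rw [this]
    exact (T F S X).add_mem (T_mul_right _ _ ha) (T_mul_left _ _ hb))⟩

lemma mk_mul (u v : FreeNonUnitalNonAssocAlgebra F X) :
    (Submodule.Quotient.mk (p := T F S X) (u * v)) =
      (Submodule.Quotient.mk u : RelFree F S X) * Submodule.Quotient.mk v := rfl

noncomputable instance instRingRelFree : NonUnitalNonAssocRing (RelFree F S X) :=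
  { (inferInstance : AddCommGroup (RelFree F S X)), instMulRelFree with
    left_distrib := by
      intro a b c
      induction a using Submodule.Quotient.induction_on with | H a => ?_
      induction b using Submodule.Quotient.induction_on with | H b => ?_
      induction c using Submodule.Quotient.induction_on with | H c => ?_
      show (Submodule.Quotient.mk (a * (b + c)) : RelFree F S X) = Submodule.Quotient.mk (a * b + a * c)
      rw [mul_add]
    right_distrib := by
      intro a b c
      induction a using Submodule.Quotient.induction_on with | H a => ?_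
      induction b using Submodule.Quotient.induction_on with | H b => ?_
      induction c using Submodule.Quotient.induction_on with | H c => ?_
      show (Submodule.Quotient.mk ((a + b) * c) : RelFree F S X) = Submodule.Quotient.mk (a * c + b * c)
      rw [add_mul]
    zero_mul := by
      intro a
      induction a using Submodule.Quotient.induction_on with | H a => ?_
      show (Submodule.Quotient.mk (0 * a) : RelFree F S X) = Submodule.Quotient.mk 0
      rw [zero_mul]
    mul_zero := by
      intro a
      induction a using Submodule.Quotient.induction_on with | H a => ?_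
      show (Submodule.Quotient.mk (a * 0) : RelFree F S X) = Submodule.Quotient.mk 0
      rw [mul_zero] }

instance instTowerRelFree : IsScalarTower F (RelFree F S X) (RelFree F S X) :=
  ⟨by
    intro r a b
    induction a using Submodule.Quotient.induction_on with | H a => ?_
    induction b using Submodule.Quotient.induction_on with | H b => ?_
    show (Submodule.Quotient.mk ((r • a) * b) : RelFree F S X) = Submodule.Quotient.mk (r • (a * b))
    rw [smul_mul_assoc]⟩

instance instCommRelFree : SMulCommClass F (RelFree F S X) (RelFree F S X) :=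
  ⟨by
    intro r a b
    induction a using Submodule.Quotient.induction_on with | H a => ?_
    induction b using Submodule.Quotient.induction_on with | H b => ?_
    show (Submodule.Quotient.mk (r • (a * b)) : RelFree F S X) = Submodule.Quotient.mk (a * (r • b))
    rw [mul_smul_comm]⟩

open FreeNonUnitalNonAssocAlgebra in
/-- the quotient map as a homomorphism -/
noncomputable def mkHom (S : Set (FreeNonUnitalNonAssocAlgebra F ℕ)) (X : Type) :
    FreeNonUnitalNonAssocAlgebra F X →ₙₐ[F] RelFree F S X where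
  toFun := Submodule.Quotient.mk
  map_smul' := fun r a => rfl
  map_zero' := rfl
  map_add' := fun a b => rfl
  map_mul' := fun a b => rfl

lemma mkHom_surj : Function.Surjective (mkHom (F := F) S X) := by
  intro a
  induction a using Submodule.Quotient.induction_on with | H a => ?_
  exact ⟨a, rfl⟩

/-- the free generators -/
noncomputable def gen (S : Set (FreeNonUnitalNonAssocAlgebra F ℕ)) (x : X) : RelFree F S X :=
  mkHom S X (FreeNonUnitalNonAssocAlgebra.of F x)

lemma relfree_inVar : InVar F S (RelFree F S X) := by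
  intro s hs f
  choose g hg using fun n => mkHom_surj (F := F) (S := S) (X := X) (f n)
  have h1 : FreeNonUnitalNonAssocAlgebra.lift F f
      = (mkHom S X).comp (FreeNonUnitalNonAssocAlgebra.lift F g) := by
    apply FreeNonUnitalNonAssocAlgebra.hom_ext
    intro n
    rw [FreeNonUnitalNonAssocAlgebra.lift_of_apply, NonUnitalAlgHom.comp_apply,
      FreeNonUnitalNonAssocAlgebra.lift_of_apply, hg]
  rw [h1, NonUnitalAlgHom.comp_apply]
  apply (Submodule.Quotient.mk_eq_zero _).2
  intro A _ _ _ _ hA k
  have h2 : FreeNonUnitalNonAssocAlgebra.lift F k (FreeNonUnitalNonAssocAlgebra.lift F g s)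
      = FreeNonUnitalNonAssocAlgebra.lift F
        (fun n => FreeNonUnitalNonAssocAlgebra.lift F k (g n)) s := by
    rw [← NonUnitalAlgHom.comp_apply]
    congr 1
    apply FreeNonUnitalNonAssocAlgebra.hom_ext
    intro n
    rw [FreeNonUnitalNonAssocAlgebra.lift_of_apply, NonUnitalAlgHom.comp_apply,
      FreeNonUnitalNonAssocAlgebra.lift_of_apply]
  rw [h2]
  exact hA s hs _

section Desc
variable {A : Type} [NonUnitalNonAssocRing A] [Module F A] [IsScalarTower F A A]
  [SMulCommClass F A A]

/-- the universal property -/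
noncomputable def desc (hA : InVar F S A) (f : X → A) : RelFree F S X →ₙₐ[F] A where
  toFun := (T F S X).liftQ (FreeNonUnitalNonAssocAlgebra.lift F f : _ →ₗ[F] A)
    (fun w hw => LinearMap.mem_ker.2 (hw A hA f))
  map_smul' := fun r a => map_smul _ r a
  map_zero' := map_zero _
  map_add' := fun a b => map_add _ a b
  map_mul' := fun a b => by
    induction a using Submodule.Quotient.induction_on with | H a => ?_
    induction b using Submodule.Quotient.induction_on with | H b => ?_
    show FreeNonUnitalNonAssocAlgebra.lift F f (a * b) = _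
    rw [map_mul]
    rfl

lemma desc_gen (hA : InVar F S A) (f : X → A) (x : X) : desc hA f (gen S x) = f x := by
  show FreeNonUnitalNonAssocAlgebra.lift F f (FreeNonUnitalNonAssocAlgebra.of F x) = f x
  exact FreeNonUnitalNonAssocAlgebra.lift_of_apply F f x

lemma rel_hom_ext {f g : RelFree F S X →ₙₐ[F] A} (h : ∀ x, f (gen S x) = g (gen S x)) : f = g := by
  have h1 : f.comp (mkHom S X) = g.comp (mkHom S X) :=
    FreeNonUnitalNonAssocAlgebra.hom_ext F (fun x => h x)
  ext z
  obtain ⟨u, rfl⟩ := mkHom_surj (F := F) (S := S) (X := X) z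
  exact DFunLike.congr_fun h1 u

end Desc

/-- the generators generate -/
lemma gen_induction (B : NonUnitalSubalgebra F (RelFree F S X)) (h : ∀ x, gen S x ∈ B)
    (z : RelFree F S X) : z ∈ B := by
  obtain ⟨u, rfl⟩ := mkHom_surj (F := F) (S := S) (X := X) z
  let k : FreeNonUnitalNonAssocAlgebra F X →ₙₐ[F] B :=
    FreeNonUnitalNonAssocAlgebra.lift F (fun x => (⟨gen S x, h x⟩ : B))
  have h1 : (NonUnitalSubalgebraClass.subtype B).comp k = mkHom S X := by
    apply FreeNonUnitalNonAssocAlgebra.hom_ext
    intro x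
    rw [NonUnitalAlgHom.comp_apply, FreeNonUnitalNonAssocAlgebra.lift_of_apply]
    rfl
  rw [← h1]
  exact (k u).2

end General

/-- The nonassociative monomial `(x x) x` in any magma. -/
def t1 {A : Type} [Mul A] (x : A) : A := (x * x) * x
/-- The nonassociative monomial `x (x x)` in any magma. -/
def t2 {A : Type} [Mul A] (x : A) : A := x * (x * x)

/-- the two variables -/
noncomputable def vx : FreeNonUnitalNonAssocAlgebra (ZMod 2) ℕ :=
  FreeNonUnitalNonAssocAlgebra.of (ZMod 2) 0
/-- the two variables -/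
noncomputable def vy : FreeNonUnitalNonAssocAlgebra (ZMod 2) ℕ :=
  FreeNonUnitalNonAssocAlgebra.of (ZMod 2) 1

/-- The identity `t1(x) y + t2(x) y + t2(x) (t1(x) y)`. -/
noncomputable def ident : FreeNonUnitalNonAssocAlgebra (ZMod 2) ℕ :=
  t1 vx * vy + t2 vx * vy + t2 vx * (t1 vx * vy)

lemma inVar_iff (A : Type) [NonUnitalNonAssocRing A]
    [Module (ZMod 2) A] [IsScalarTower (ZMod 2) A A] [SMulCommClass (ZMod 2) A A] :
    InVar (ZMod 2) {ident} A ↔ ∀ u v : A, t1 u * v + t2 u * v + t2 u * (t1 u * v) = 0 := by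
  constructor
  · intro h u v
    have := h ident rfl (fun n => if n = 0 then u else v)
    simpa [ident, t1, t2, vx, vy, FreeNonUnitalNonAssocAlgebra.lift_of_apply] using this
  · rintro h s rfl f
    have := h (f 0) (f 1)
    simpa [ident, t1, t2, vx, vy, FreeNonUnitalNonAssocAlgebra.lift_of_apply] using this

/-- the model -/
def Md : Type := (ZMod 2 × ZMod 2 × ZMod 2 × ZMod 2) × (ℕ → ZMod 2)

instance : AddCommGroup Md := inferInstanceAs (AddCommGroup ((ZMod 2 × ZMod 2 × ZMod 2 × ZMod 2) × (ℕ → ZMod 2)))
instance : Module (ZMod 2) Md := inferInstanceAs (Module (ZMod 2) ((ZMod 2 × ZMod 2 × ZMod 2 × ZMod 2) × (ℕ → ZMod 2)))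

/-- right shift plus identity -/
def opL (n : ℕ → ZMod 2) : ℕ → ZMod 2 := fun k => (if k = 0 then 0 else n (k - 1)) + n k
/-- left shift plus identity -/
def opE (n : ℕ → ZMod 2) : ℕ → ZMod 2 := fun k => n (k + 1) + n k

instance : Mul Md := ⟨fun u v => ((0, u.1.1 * v.1.1, u.1.2.1 * v.1.1, u.1.1 * v.1.2.1),
  fun k => u.1.2.2.1 * opL v.2 k + u.1.2.2.2 * opE v.2 k)⟩

lemma opL_add (m n : ℕ → ZMod 2) (k : ℕ) : opL (m + n) k = opL m k + opL n k := by
  unfold opL
  split_ifs
  · simp
  · simp only [Pi.add_apply]; ring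
lemma opE_add (m n : ℕ → ZMod 2) (k : ℕ) : opE (m + n) k = opE m k + opE n k := by
  unfold opE
  simp only [Pi.add_apply]; ring

lemma Md_ext {u v : Md} (h : u.1.1 = v.1.1) (h2 : u.1.2.1 = v.1.2.1) (h3 : u.1.2.2.1 = v.1.2.2.1)
    (h4 : u.1.2.2.2 = v.1.2.2.2) (h5 : ∀ k, u.2 k = v.2 k) : u = v :=
  Prod.ext (Prod.ext h (Prod.ext h2 (Prod.ext h3 h4))) (funext h5)

instance : NonUnitalNonAssocRing Md :=
  { (inferInstance : AddCommGroup Md), (inferInstance : Mul Md) with
    left_distrib := by
      intro a b c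
      apply Md_ext
      · show (0 : ZMod 2) = 0 + 0
        ring
      · show a.1.1 * (b.1.1 + c.1.1) = a.1.1 * b.1.1 + a.1.1 * c.1.1
        ring
      · show a.1.2.1 * (b.1.1 + c.1.1) = a.1.2.1 * b.1.1 + a.1.2.1 * c.1.1
        ring
      · show a.1.1 * (b.1.2.1 + c.1.2.1) = a.1.1 * b.1.2.1 + a.1.1 * c.1.2.1
        ring
      · intro k
        show a.1.2.2.1 * opL (b.2 + c.2) k + a.1.2.2.2 * opE (b.2 + c.2) k
          = (a.1.2.2.1 * opL b.2 k + a.1.2.2.2 * opE b.2 k)
            + (a.1.2.2.1 * opL c.2 k + a.1.2.2.2 * opE c.2 k)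
        rw [opL_add, opE_add]
        ring
    right_distrib := by
      intro a b c
      apply Md_ext
      · show (0 : ZMod 2) = 0 + 0
        ring
      · show (a.1.1 + b.1.1) * c.1.1 = a.1.1 * c.1.1 + b.1.1 * c.1.1
        ring
      · show (a.1.2.1 + b.1.2.1) * c.1.1 = a.1.2.1 * c.1.1 + b.1.2.1 * c.1.1
        ring
      · show (a.1.1 + b.1.1) * c.1.2.1 = a.1.1 * c.1.2.1 + b.1.1 * c.1.2.1
        ring
      · intro k
        show (a.1.2.2.1 + b.1.2.2.1) * opL c.2 k + (a.1.2.2.2 + b.1.2.2.2) * opE c.2 k
          = (a.1.2.2.1 * opL c.2 k + a.1.2.2.2 * opE c.2 k)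
            + (b.1.2.2.1 * opL c.2 k + b.1.2.2.2 * opE c.2 k)
        ring
    zero_mul := by
      intro a
      apply Md_ext
      · rfl
      · show (0 : ZMod 2) * _ = 0
        ring
      · show (0 : ZMod 2) * _ = 0
        ring
      · show (0 : ZMod 2) * _ = 0
        ring
      · intro k
        show (0 : ZMod 2) * _ + 0 * _ = 0
        ring
    mul_zero := by
      intro a
      apply Md_ext
      · rfl
      · show _ * (0 : ZMod 2) = 0
        ring
      · show _ * (0 : ZMod 2) = 0
        ring
      · show _ * (0 : ZMod 2) = 0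
        ring
      · intro k
        show a.1.2.2.1 * ((if k = 0 then 0 else 0) + 0) + a.1.2.2.2 * (0 + 0) = 0
        simp }

lemma z2cases (r : ZMod 2) : r = 0 ∨ r = 1 := by
  revert r; decide

instance : IsScalarTower (ZMod 2) Md Md := ⟨by
  intro r a b
  rcases z2cases r with rfl | rfl
  · simp
  · simp⟩

instance : SMulCommClass (ZMod 2) Md Md := ⟨by
  intro r a b
  rcases z2cases r with rfl | rfl
  · simp
  · simp⟩

lemma mul_c0 (u v : Md) : (u * v).1.1 = 0 := rfl
lemma mul_c1 (u v : Md) : (u * v).1.2.1 = u.1.1 * v.1.1 := rfl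
lemma mul_c2 (u v : Md) : (u * v).1.2.2.1 = u.1.2.1 * v.1.1 := rfl
lemma mul_c3 (u v : Md) : (u * v).1.2.2.2 = u.1.1 * v.1.2.1 := rfl
lemma mul_m (u v : Md) (k : ℕ) : (u * v).2 k
    = u.1.2.2.1 * opL v.2 k + u.1.2.2.2 * opE v.2 k := rfl

lemma t1_c0 (u : Md) : (t1 u).1.1 = 0 := rfl
lemma t1_c1 (u : Md) : (t1 u).1.2.1 = 0 := by
  show (0 : ZMod 2) * _ = 0
  ring
lemma t1_c2 (u : Md) : (t1 u).1.2.2.1 = u.1.1 * u.1.1 * u.1.1 := rfl
lemma t1_c3 (u : Md) : (t1 u).1.2.2.2 = 0 := by
  show (0 : ZMod 2) * _ = 0
  ring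
lemma t2_c0 (u : Md) : (t2 u).1.1 = 0 := rfl
lemma t2_c1 (u : Md) : (t2 u).1.2.1 = 0 := by
  show _ * (0 : ZMod 2) = 0
  ring
lemma t2_c2 (u : Md) : (t2 u).1.2.2.1 = 0 := by
  show _ * (0 : ZMod 2) = 0
  ring
lemma t2_c3 (u : Md) : (t2 u).1.2.2.2 = u.1.1 * (u.1.1 * u.1.1) := rfl

lemma add_c0 (u v : Md) : (u + v).1.1 = u.1.1 + v.1.1 := rfl
lemma add_c1 (u v : Md) : (u + v).1.2.1 = u.1.2.1 + v.1.2.1 := rfl
lemma add_c2 (u v : Md) : (u + v).1.2.2.1 = u.1.2.2.1 + v.1.2.2.1 := rfl
lemma add_c3 (u v : Md) : (u + v).1.2.2.2 = u.1.2.2.2 + v.1.2.2.2 := rfl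
lemma add_m (u v : Md) (k : ℕ) : (u + v).2 k = u.2 k + v.2 k := rfl

lemma z2add (r : ZMod 2) : r + r = 0 := by
  revert r; decide

lemma md_ident (u v : Md) : t1 u * v + t2 u * v + t2 u * (t1 u * v) = 0 := by
  apply Md_ext
  · simp only [add_c0, mul_c0, add_zero]
    rfl
  · simp only [add_c1, mul_c1, t1_c0, t2_c0, mul_c0, zero_mul, add_zero]
    rfl
  · simp only [add_c2, mul_c2, t1_c1, t2_c1, zero_mul, add_zero]
    rfl
  · simp only [add_c3, mul_c3, t1_c0, t2_c0, zero_mul, add_zero]
    rfl
  · intro k
    show _ = (0 : ZMod 2)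
    simp only [add_m, mul_m, t1_c2, t1_c3, t2_c2, t2_c3, zero_mul, add_zero, zero_add]
    rcases z2cases u.1.1 with h | h
    · rw [h]; ring
    · rw [h]
      have h2 : (t1 u * v).2 = opL v.2 := by
        funext j
        rw [mul_m, t1_c2, t1_c3, h]
        ring
      rw [h2]
      unfold opE opL
      simp only [Nat.add_sub_cancel, Nat.add_eq_zero_iff, one_ne_zero, and_false, if_false]
      set p := (if k = 0 then (0 : ZMod 2) else v.2 (k - 1))
      set q := v.2 k
      set r := v.2 (k + 1)
      clear_value p q r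
      revert p q r
      decide

lemma md_inVar : InVar (ZMod 2) {ident} Md := (inVar_iff Md).2 md_ident

/-- The witness for the first variable in the model. -/
def ux : Md := ((1, 0, 0, 0), fun _ => 0)
/-- The witness for the second variable in the model. -/
def uy : Md := ((0, 0, 0, 0), fun k => if k = 0 then 1 else 0)

lemma md_ne : t2 ux * uy + (t1 ux * uy + t1 ux * (t2 ux * uy)) ≠ 0 := by
  intro h
  have h0 := congrArg (fun z : Md => z.2 0) h
  have h1 : (t2 ux * uy + (t1 ux * uy + t1 ux * (t2 ux * uy))).2 0 = 1 := by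
    rw [add_m, add_m, mul_m, mul_m, mul_m, t1_c2, t1_c3, t2_c2, t2_c3]
    have e1 : opE (t2 ux * uy).2 0 = opE (t2 ux * uy).2 0 := rfl
    have e2 : opL (t2 ux * uy).2 0 = 1 := by
      show (if 0 = 0 then (0 : ZMod 2) else _) + (t2 ux * uy).2 0 = 1
      rw [mul_m, t2_c2, t2_c3]
      simp [ux, uy, opE]
    rw [e2]
    simp [ux, uy, opL, opE]
    decide
  have h2 : (1 : ZMod 2) = 0 := by
    rw [← h1]; exact h0
  exact absurd h2 (by decide)

/-- The relatively free algebra of rank two. -/
abbrev R2 : Type := RelFree (ZMod 2) {ident} (Fin 2)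

/-- First free generator. -/
noncomputable def gx : R2 := gen {ident} 0
/-- Second free generator. -/
noncomputable def gy : R2 := gen {ident} 1

lemma r2_ident (u v : R2) : t1 u * v + t2 u * v + t2 u * (t1 u * v) = 0 :=
  (inVar_iff R2).1 relfree_inVar u v

/-- The endomorphism fixing x and sending y to y + t1(x) y. -/
noncomputable def phi : R2 →ₙₐ[ZMod 2] R2 :=
  desc relfree_inVar (fun i => if i = 0 then gx else gy + t1 gx * gy)
/-- The endomorphism fixing x and sending y to y + t2(x) y. -/
noncomputable def psi : R2 →ₙₐ[ZMod 2] R2 :=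
  desc relfree_inVar (fun i => if i = 0 then gx else gy + t2 gx * gy)

lemma phi_x : phi gx = gx := by
  have := desc_gen (relfree_inVar (F := ZMod 2) (S := {ident}) (X := Fin 2))
    (fun i : Fin 2 => if i = 0 then gx else gy + t1 gx * gy) 0
  exact this
lemma phi_y : phi gy = gy + t1 gx * gy := by
  have := desc_gen (relfree_inVar (F := ZMod 2) (S := {ident}) (X := Fin 2))
    (fun i : Fin 2 => if i = 0 then gx else gy + t1 gx * gy) 1
  exact this
lemma psi_x : psi gx = gx := by
  have := desc_gen (relfree_inVar (F := ZMod 2) (S := {ident}) (X := Fin 2))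
    (fun i : Fin 2 => if i = 0 then gx else gy + t2 gx * gy) 0
  exact this
lemma psi_y : psi gy = gy + t2 gx * gy := by
  have := desc_gen (relfree_inVar (F := ZMod 2) (S := {ident}) (X := Fin 2))
    (fun i : Fin 2 => if i = 0 then gx else gy + t2 gx * gy) 1
  exact this

lemma phi_psi (z : R2) : phi (psi z) = z := by
  have h : phi.comp psi = NonUnitalAlgHom.id (ZMod 2) R2 := by
    apply rel_hom_ext
    intro i
    rw [NonUnitalAlgHom.comp_apply, NonUnitalAlgHom.coe_id, id]
    fin_cases i
    · show phi (psi gx) = gx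
      rw [psi_x, phi_x]
    · show phi (psi gy) = gy
      have h2 := r2_ident gx gy
      rw [psi_y, map_add, map_mul, phi_y]
      have h3 : phi (t2 gx) = t2 gx := by
        unfold t2
        rw [map_mul, map_mul, phi_x]
      rw [h3, mul_add]
      calc gy + t1 gx * gy + (t2 gx * gy + t2 gx * (t1 gx * gy))
          = gy + (t1 gx * gy + t2 gx * gy + t2 gx * (t1 gx * gy)) := by abel
        _ = gy := by rw [h2, add_zero]
  exact DFunLike.congr_fun h z

lemma psi_phi_ne : ¬ Function.Injective phi := by
  intro hinj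
  have h1 : psi (phi gy) = gy := hinj (phi_psi (phi gy))
  have h3 : psi (t1 gx) = t1 gx := by
    unfold t1
    rw [map_mul, map_mul, psi_x]
  rw [phi_y, map_add, map_mul, h3, psi_y, mul_add] at h1
  have h4 : t2 gx * gy + (t1 gx * gy + t1 gx * (t2 gx * gy)) = 0 := by
    have : gy + (t2 gx * gy + (t1 gx * gy + t1 gx * (t2 gx * gy))) = gy + 0 := by
      rw [add_zero, ← add_assoc]
      exact h1
    exact add_left_cancel this
  let D : R2 →ₙₐ[ZMod 2] Md := desc md_inVar (fun i => if i = 0 then ux else uy)
  have hx : D gx = ux := by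
    have := desc_gen md_inVar (fun i : Fin 2 => if i = 0 then ux else uy) 0
    exact this
  have hy : D gy = uy := by
    have := desc_gen md_inVar (fun i : Fin 2 => if i = 0 then ux else uy) 1
    exact this
  have h5 := congrArg D h4
  have hD1 : D (t1 gx) = t1 ux := by
    unfold t1
    rw [map_mul, map_mul, hx]
  have hD2 : D (t2 gx) = t2 ux := by
    unfold t2
    rw [map_mul, map_mul, hx]
  rw [map_add, map_add, map_mul, map_mul, map_mul, map_mul, hD1, hD2, hy, map_zero] at h5
  exact md_ne h5

/-- The iterates of the endomorphism. -/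
noncomputable def it : ℕ → (R2 →ₙₐ[ZMod 2] R2)
  | 0 => NonUnitalAlgHom.id (ZMod 2) R2
  | (k + 1) => phi.comp (it k)

lemma it_succ (k : ℕ) (z : R2) : it (k + 1) z = phi (it k z) := rfl
lemma it_zero (z : R2) : it 0 z = z := rfl

lemma it_add (j k : ℕ) (z : R2) : it (j + k) z = it j (it k z) := by
  induction j with
  | zero => rw [Nat.zero_add, it_zero]
  | succ j ih => rw [Nat.add_right_comm, it_succ, it_succ, ih]

lemma it_surj (k : ℕ) : Function.Surjective (it k) := by
  induction k with
  | zero => intro z; exact ⟨z, rfl⟩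
  | succ k ih =>
    intro z
    obtain ⟨y, hy⟩ := ih (psi z)
    exact ⟨y, by rw [it_succ, hy, phi_psi]⟩

lemma it_ker (j : ℕ) (w : R2) (hw : phi w = 0) : it (j + 1) w = 0 := by
  rw [it_add j 1, it_succ, it_zero, hw, map_zero]

/-- The main theorem. -/
theorem result : ∃ S : Set (FreeNonUnitalNonAssocAlgebra (ZMod 2) ℕ),
    (∃ φ : RelFree (ZMod 2) S (Fin 2) →ₙₐ[ZMod 2] RelFree (ZMod 2) S (Fin 2),
      Function.Surjective φ ∧ ¬ Function.Injective φ) ∧
    (∃ w : RelFree (ZMod 2) S (Fin 2), w ≠ 0 ∧
      ∀ I : Submodule (ZMod 2) (RelFree (ZMod 2) S (Fin 2)),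
        (∀ a : RelFree (ZMod 2) S (Fin 2), ∀ b ∈ I, a * b ∈ I ∧ b * a ∈ I) →
        Finite (RelFree (ZMod 2) S (Fin 2) ⧸ I) → w ∈ I) := by
  refine ⟨{ident}, ⟨phi, fun z => ⟨psi z, phi_psi z⟩, psi_phi_ne⟩, ?_⟩
  have hni := psi_phi_ne
  unfold Function.Injective at hni
  push Not at hni
  obtain ⟨z1, z2, h12, hne⟩ := hni
  refine ⟨z1 - z2, sub_ne_zero.2 hne, ?_⟩
  have hw : phi (z1 - z2) = 0 := by rw [map_sub, h12, sub_self]
  intro I hI hfin
  obtain ⟨k, l, hkl, heq⟩ := Finite.exists_ne_map_eq_of_infinite
    (fun n : ℕ => ((Submodule.Quotient.mk (it n gx) : R2 ⧸ I),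
      (Submodule.Quotient.mk (it n gy) : R2 ⧸ I)))
  wlog hlt : k < l generalizing k l with H
  · exact H l k hkl.symm heq.symm (lt_of_le_of_ne (not_lt.1 hlt) hkl.symm)
  have hx : it k gx - it l gx ∈ I := (Submodule.Quotient.eq I).1 (congrArg Prod.fst heq)
  have hy : it k gy - it l gy ∈ I := (Submodule.Quotient.eq I).1 (congrArg Prod.snd heq)
  let B : NonUnitalSubalgebra (ZMod 2) R2 :=
    { carrier := {z | it k z - it l z ∈ I}
      add_mem' := by
        intro a b ha hb
        show it k (a + b) - it l (a + b) ∈ I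
        rw [map_add, map_add]
        have : it k a + it k b - (it l a + it l b) = (it k a - it l a) + (it k b - it l b) := by
          abel
        rw [this]
        exact I.add_mem ha hb
      zero_mem' := by
        show it k 0 - it l 0 ∈ I
        rw [map_zero, map_zero, sub_zero]
        exact I.zero_mem
      smul_mem' := by
        intro c a ha
        show it k (c • a) - it l (c • a) ∈ I
        rw [map_smul, map_smul, ← smul_sub]
        exact I.smul_mem c ha
      mul_mem' := by
        intro a b ha hb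
        show it k (a * b) - it l (a * b) ∈ I
        rw [map_mul, map_mul]
        have : it k a * it k b - it l a * it l b
            = it k a * (it k b - it l b) + (it k a - it l a) * it l b := by
          rw [mul_sub, sub_mul]; abel
        rw [this]
        exact I.add_mem (hI _ _ hb).1 (hI _ _ ha).2 }
  have hB : ∀ z : R2, it k z - it l z ∈ I := by
    intro z
    apply gen_induction B
    intro i
    fin_cases i
    · exact hx
    · exact hy
  obtain ⟨u, hu⟩ := it_surj k (z1 - z2)
  have h6 := hB u
  obtain ⟨j, rfl⟩ : ∃ j, l = (j + 1) + k := ⟨l - k - 1, by omega⟩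
  rw [it_add (j + 1) k, hu, it_ker j _ hw, sub_zero] at h6
  exact h6

end Pool.Agent.Results.MP_e7abc8_al.NonHopfian
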